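import Mathlib

/-!
# MSG: rigid local domains and their multiplicative semigroups (MP_cc8255_al)
-/

set_option autoImplicit false

namespace Pool.Agent.MSG

/-- `z` is central -/
def Cn {R : Type*} [Ring R] (z : R) : Prop := ∀ x, z * x = x * z

/-- rigid domain in which every nonzero nonunit has an irreducible left factor, and in which the
nonunits are not a principal right ideal -/
structure Rig (R : Type*) [Ring R] : Prop where
  rigid : ∀ a b c d : R, a * c = b * d → a * c ≠ 0 → (∃ t, a = b * t) ∨ ∃ t, b = a * t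
  atom : ∀ p : R, p ≠ 0 → ¬ IsUnit p → ∃ a t : R, Irreducible a ∧ p = a * t
  two : ∃ a b : R, Irreducible a ∧ Irreducible b ∧ ¬ ∃ t, b = a * t

/-- units which normalise an atomic right ideal are central modulo this ideal -/
def CRes (R : Type*) [Ring R] : Prop :=
  ∀ a u : R, Irreducible a → IsUnit u → (∃ s, u * a = a * s) → ∃ z r : R, Cn z ∧ u = z + a * r

/-- `a R` and `b R` are independent -/
def Ind {R : Type*} [Ring R] (a b : R) : Prop := ∀ c d : R, a * c = b * d → a * c = 0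

section basic
variable {R : Type*} [Ring R] [IsDomain R]

theorem inv_comm {a b : R} (h : a * b = 1) : b * a = 1 := by
  have hb : b ≠ 0 := by
    rintro rfl
    rw [mul_zero] at h
    exact zero_ne_one h
  apply mul_right_cancel₀ hb
  rw [mul_assoc, h, mul_one, one_mul]

theorem unit_left {a b : R} (h : a * b = 1) : IsUnit a := ⟨⟨a, b, h, inv_comm h⟩, rfl⟩

theorem unit_right {a b : R} (h : a * b = 1) : IsUnit b := ⟨⟨b, a, inv_comm h, h⟩, rfl⟩

theorem nu_mul_left {x : R} (h : ¬ IsUnit x) (y : R) : ¬ IsUnit (x * y) := by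
  rintro ⟨u, hu⟩
  apply h
  apply unit_left (b := y * (u⁻¹ : Rˣ))
  rw [← mul_assoc, ← hu, Units.mul_inv]

theorem nu_mul_right {y : R} (h : ¬ IsUnit y) (x : R) : ¬ IsUnit (x * y) := by
  rintro ⟨u, hu⟩
  apply h
  apply unit_right (a := (u⁻¹ : Rˣ) * x)
  rw [mul_assoc, ← hu, Units.inv_mul]

theorem nu_zero : ¬ IsUnit (0 : R) := not_isUnit_zero

theorem ne_zero_of_unit {u : R} (h : IsUnit u) : u ≠ 0 := by
  rintro rfl
  exact nu_zero h

theorem ne_zero_of_irr {u : R} (h : Irreducible u) : u ≠ 0 := by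
  rintro rfl
  rcases h.isUnit_or_isUnit (mul_zero (0 : R)).symm with h' | h' <;> exact nu_zero h'

theorem irr_mul_unit {a w : R} (ha : Irreducible a) (hw : IsUnit w) : Irreducible (a * w) := by
  obtain ⟨w, rfl⟩ := hw
  exact (irreducible_mul_units w).2 ha

theorem irr_unit_mul {a w : R} (ha : Irreducible a) (hw : IsUnit w) : Irreducible (w * a) := by
  obtain ⟨w, rfl⟩ := hw
  exact (irreducible_units_mul w).2 ha

theorem Ind.symm {a b : R} (h : Ind a b) : Ind b a := fun c d e => by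
  rw [e]; exact h d c e.symm

theorem Ind.unit {a b : R} (h : Ind a b) {w : R} : Ind a (b * w) := fun c d e => by
  rw [mul_assoc] at e; exact h c _ e

/-- adding `1 + x y` for a nonunit `x` in a rigid domain -/
theorem Rig.one_add (hR : Rig R) {x : R} (hx : ¬ IsUnit x) (y : R) : IsUnit (1 + x * y) := by
  by_cases hx0 : x = 0
  · rw [hx0, zero_mul, add_zero]; exact isUnit_one
  by_cases h0 : 1 + x * y = 0
  · exact absurd (unit_left (b := -y) (by rw [mul_neg]; exact (eq_neg_of_add_eq_zero_left h0).symm)) hx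
  have e : x * (1 + y * x) = (1 + x * y) * x := by noncomm_ring
  have hne : x * (1 + y * x) ≠ 0 := by rw [e]; exact mul_ne_zero h0 hx0
  rcases hR.rigid _ _ _ _ e hne with ⟨t, ht⟩ | ⟨t, ht⟩
  · have h1 : t = x * (1 - y * t) := by
      have h2 : x = t + x * y * t := by
        calc x = (1 + x * y) * t := ht
          _ = _ := by noncomm_ring
      calc t = (t + x * y * t) - x * y * t := by noncomm_ring
        _ = x - x * y * t := by rw [← h2]
        _ = x * (1 - y * t) := by noncomm_ring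
    have h3 : x * ((1 + y * x) * (1 - y * t)) = x * 1 := by
      calc x * ((1 + y * x) * (1 - y * t)) = (1 + x * y) * (x * (1 - y * t)) := by noncomm_ring
        _ = (1 + x * y) * t := by rw [← h1]
        _ = x * 1 := by rw [← ht, mul_one]
    have h4 := mul_left_cancel₀ hx0 h3
    have h5 := inv_comm h4
    set w := 1 - y * t with hw
    apply unit_left (b := 1 - x * w * y)
    have h6 : (1 + y * x) * w = 1 := h4
    calc (1 + x * y) * (1 - x * w * y) = 1 + x * y - x * ((1 + y * x) * w) * y := by noncomm_ring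
      _ = 1 := by rw [h6]; noncomm_ring
  · exfalso
    apply hx
    apply unit_left (b := t - y)
    calc x * (t - y) = x * t - x * y := by noncomm_ring
      _ = 1 := by rw [← ht]; noncomm_ring

theorem Rig.nu_add (hR : Rig R) {x y : R} (hx : ¬ IsUnit x) (hy : ¬ IsUnit y) :
    ¬ IsUnit (x + y) := by
  rintro ⟨u, hu⟩
  apply hx
  have h1 : IsUnit (1 + y * (-((u⁻¹ : Rˣ) : R))) := hR.one_add hy _
  have h2 : x = (1 + y * (-((u⁻¹ : Rˣ) : R))) * u := by
    have h3 : y * ((u⁻¹ : Rˣ) : R) * u = y := by rw [mul_assoc, Units.inv_mul, mul_one]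
    calc x = (x + y) - y := by noncomm_ring
      _ = (u : R) - y := by rw [hu]
      _ = (u : R) - y * ((u⁻¹ : Rˣ) : R) * u := by rw [h3]
      _ = _ := by noncomm_ring
  rw [h2]
  exact h1.mul u.isUnit

theorem nu_neg {x : R} (hx : ¬ IsUnit x) : ¬ IsUnit (-x) := fun h => hx (by simpa using h.neg)

theorem Rig.nu_sub (hR : Rig R) {x y : R} (hx : ¬ IsUnit x) (hy : ¬ IsUnit y) :
    ¬ IsUnit (x - y) := by
  rw [sub_eq_add_neg]; exact hR.nu_add hx (nu_neg hy)

theorem Rig.one_add' (hR : Rig R) {x : R} (hx : ¬ IsUnit x) : IsUnit (1 + x) := by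
  have := hR.one_add hx 1
  rwa [mul_one] at this

theorem Rig.ind_or (hR : Rig R) {a b : R} (ha : Irreducible a) (hb : Irreducible b) :
    Ind a b ∨ ∃ w, IsUnit w ∧ b = a * w := by
  by_cases h : Ind a b
  · exact Or.inl h
  right
  unfold Ind at h
  push Not at h
  obtain ⟨c, d, e, hne⟩ := h
  rcases hR.rigid _ _ _ _ e hne with ⟨t, ht⟩ | ⟨t, ht⟩
  · rcases ha.isUnit_or_isUnit ht with h1 | h1
    · exact absurd h1 hb.not_isUnit
    · obtain ⟨t, rfl⟩ := h1
      exact ⟨(t⁻¹ : Rˣ), Units.isUnit _, by rw [ht, mul_assoc, Units.mul_inv, mul_one]⟩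
  · rcases hb.isUnit_or_isUnit ht with h1 | h1
    · exact absurd h1 ha.not_isUnit
    · exact ⟨t, h1, ht⟩

theorem Rig.exists_ind (hR : Rig R) {a : R} (ha : Irreducible a) :
    ∃ b, Irreducible b ∧ Ind a b := by
  obtain ⟨x, y, hx, hy, hxy⟩ := hR.two
  have hxy' : Ind x y := by
    rcases hR.ind_or hx hy with h | ⟨w, -, h⟩
    · exact h
    · exact absurd ⟨w, h⟩ hxy
  rcases hR.ind_or hx ha with h | ⟨w, hw, h⟩
  · exact ⟨x, hx, h.symm⟩
  · refine ⟨y, hy, ?_⟩
    rw [h]
    exact (hxy'.symm.unit).symm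

theorem Ind.zero {a b : R} (h : Ind a b) (ha : Irreducible a) (hb : Irreducible b) {c d : R}
    (e : a * c = b * d) : c = 0 ∧ d = 0 := by
  have h1 := h c d e
  have h2 : b * d = 0 := by rw [← e]; exact h1
  exact ⟨(mul_eq_zero.1 h1).resolve_left (ne_zero_of_irr ha),
    (mul_eq_zero.1 h2).resolve_left (ne_zero_of_irr hb)⟩

/-- nonunits which normalise an atomic right ideal are in this ideal -/
theorem Rig.norm_nu (hR : Rig R) {a r s : R} (ha : Irreducible a) (hr : ¬ IsUnit r)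
    (e : r * a = a * s) : ∃ t, r = a * t := by
  by_cases h0 : r = 0
  · exact ⟨0, by rw [h0, mul_zero]⟩
  have hne : r * a ≠ 0 := mul_ne_zero h0 (ne_zero_of_irr ha)
  rcases hR.rigid _ _ _ _ e hne with h | ⟨t, ht⟩
  · exact h
  · rcases ha.isUnit_or_isUnit ht with h1 | h1
    · exact absurd h1 hr
    · obtain ⟨t, rfl⟩ := h1
      exact ⟨(t⁻¹ : Rˣ), by rw [ht, mul_assoc, Units.mul_inv, mul_one]⟩

/-- nonzero central elements are units -/
theorem Rig.cn_unit (hR : Rig R) {z : R} (hz : Cn z) (h0 : z ≠ 0) : IsUnit z := by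
  by_contra hu
  obtain ⟨a, t, ha, ht⟩ := hR.atom z h0 hu
  obtain ⟨b, hb, hab⟩ := hR.exists_ind ha
  have e : a * (t * b) = b * z := by rw [← mul_assoc, ← ht, hz]
  exact h0 (hab.zero ha hb e).2

theorem Rig.cn_nu (hR : Rig R) {z : R} (hz : Cn z) (hu : ¬ IsUnit z) : z = 0 := by
  by_contra h0
  exact hu (hR.cn_unit hz h0)

theorem Cn.sub {z w : R} (hz : Cn z) (hw : Cn w) : Cn (z - w) := fun x => by
  rw [sub_mul, mul_sub, hz, hw]

theorem Cn.mul {z w : R} (hz : Cn z) (hw : Cn w) : Cn (z * w) := fun x => by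
  rw [mul_assoc, hw x, ← mul_assoc, hz x, mul_assoc]

theorem Cn.inv {z : Rˣ} (hz : Cn (z : R)) : Cn ((z⁻¹ : Rˣ) : R) := fun x => by
  have h := hz (((z⁻¹ : Rˣ) : R) * x * ((z⁻¹ : Rˣ) : R))
  calc ((z⁻¹ : Rˣ) : R) * x = ((z⁻¹ : Rˣ) : R) * x * ((z⁻¹ : Rˣ) : R) * z := by
        rw [mul_assoc _ _ (z : R), Units.inv_mul, mul_one]
    _ = z * (((z⁻¹ : Rˣ) : R) * x * ((z⁻¹ : Rˣ) : R)) := h.symm
    _ = x * ((z⁻¹ : Rˣ) : R) := by
        rw [← mul_assoc, ← mul_assoc, Units.mul_inv, one_mul]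

theorem cn_one : Cn (1 : R) := fun x => by rw [one_mul, mul_one]

/-- uniqueness of the decomposition `z (1 + p)` -/
theorem Rig.uniq (hR : Rig R) {z w p q : R} (hz : Cn z) (hw : Cn w) (hp : ¬ IsUnit p)
    (hq : ¬ IsUnit q) (hz0 : IsUnit z) (e : z * (1 + p) = w * (1 + q)) : z = w ∧ p = q := by
  have h1 : z - w = w * q - z * p := by
    have : z * (1 + p) - w * (1 + q) = 0 := by rw [e, sub_self]
    calc z - w = (z * (1 + p) - w * (1 + q)) + (w * q - z * p) := by noncomm_ring
      _ = _ := by rw [this, zero_add]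
  have h2 : ¬ IsUnit (z - w) := by
    rw [h1]; exact hR.nu_sub (nu_mul_right hq w) (nu_mul_right hp z)
  have h3 : z = w := sub_eq_zero.1 (hR.cn_nu (hz.sub hw) h2)
  refine ⟨h3, ?_⟩
  rw [← h3] at e
  exact add_left_cancel (mul_left_cancel₀ (ne_zero_of_unit hz0) e)

end basic

end Pool.Agent.MSG
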