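import Pool.Agent.MSG.Basic

/-!
# MSG: a rigid local domain with central residues is determined by its multiplicative semigroup
-/

set_option autoImplicit false
set_option linter.unusedSectionVars false

namespace Pool.Agent.MSG

section transfer
variable {R S : Type*} [Ring R] [IsDomain R] [Ring S] [IsDomain S]

theorem f_unit (f : S ≃* R) {s : S} : IsUnit (f s) ↔ IsUnit s := MulEquiv.isUnit_map f

theorem f_irr (f : S ≃* R) {s : S} : Irreducible (f s) ↔ Irreducible s :=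
  MulEquiv.irreducible_iff f

theorem f_zero (f : S ≃* R) : f 0 = 0 := by
  obtain ⟨s, hs⟩ := f.surjective 0
  have h : f (0 * s) = f 0 * f s := map_mul f 0 s
  rw [zero_mul, hs, mul_zero] at h
  exact h

theorem f_ne (f : S ≃* R) {s : S} (h : s ≠ 0) : f s ≠ 0 := fun e =>
  h (f.injective (by rw [e, f_zero]))

theorem f_cn (f : S ≃* R) {s : S} : Cn (f s) ↔ Cn s := by
  constructor
  · intro h x
    apply f.injective
    rw [map_mul, map_mul]
    exact h (f x)
  · intro h x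
    obtain ⟨x, rfl⟩ := f.surjective x
    rw [← map_mul, ← map_mul, h x]

theorem f_ind (f : S ≃* R) {a b : S} (h : Ind a b) : Ind (f a) (f b) := by
  intro c d e
  obtain ⟨c, rfl⟩ := f.surjective c
  obtain ⟨d, rfl⟩ := f.surjective d
  rw [← map_mul, ← map_mul] at e
  rw [← map_mul, h c d (f.injective e), f_zero]

theorem Rig.transfer (hR : Rig R) (f : S ≃* R) : Rig S where
  rigid := by
    intro a b c d e hne
    have e' : f a * f c = f b * f d := by rw [← map_mul, ← map_mul, e]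
    have hne' : f a * f c ≠ 0 := by rw [← map_mul]; exact f_ne f hne
    rcases hR.rigid _ _ _ _ e' hne' with ⟨t, ht⟩ | ⟨t, ht⟩
    · obtain ⟨t, rfl⟩ := f.surjective t
      exact Or.inl ⟨t, f.injective (by rw [ht, map_mul])⟩
    · obtain ⟨t, rfl⟩ := f.surjective t
      exact Or.inr ⟨t, f.injective (by rw [ht, map_mul])⟩
  atom := by
    intro p hp hu
    obtain ⟨a, t, ha, ht⟩ := hR.atom (f p) (f_ne f hp) (fun h => hu ((f_unit f).1 h))
    obtain ⟨a, rfl⟩ := f.surjective a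
    obtain ⟨t, rfl⟩ := f.surjective t
    exact ⟨a, t, (f_irr f).1 ha, f.injective (by rw [ht, map_mul])⟩
  two := by
    obtain ⟨a, b, ha, hb, h⟩ := hR.two
    obtain ⟨a, rfl⟩ := f.surjective a
    obtain ⟨b, rfl⟩ := f.surjective b
    refine ⟨a, b, (f_irr f).1 ha, (f_irr f).1 hb, ?_⟩
    rintro ⟨t, ht⟩
    exact h ⟨f t, by rw [ht, map_mul]⟩

end transfer

/-- the data: `f (1 + s) = ζ s (1 + ρ s)` -/
structure Dat {R S : Type*} [Ring R] [Ring S] (f : S ≃* R) (ρ ζ : S → R) : Prop where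
  cn : ∀ s, ¬ IsUnit s → Cn (ζ s)
  un : ∀ s, ¬ IsUnit s → IsUnit (ζ s)
  nu : ∀ s, ¬ IsUnit s → ¬ IsUnit (ρ s)
  eq : ∀ s, ¬ IsUnit s → f (1 + s) = ζ s * (1 + ρ s)
  ats : ∀ s, ¬ IsUnit s → ∀ a, Irreducible a → (∃ t, s = a * t) → ∃ r, ρ s = f a * r

section main
variable {R S : Type*} [Ring R] [IsDomain R] [Ring S] [IsDomain S] {f : S ≃* R}

theorem decomp (hR : Rig R) (hS : Rig S) (hC : CRes R) (f : S ≃* R) {a t : S}
    (ha : Irreducible a) : ∃ z r : R, Cn z ∧ IsUnit z ∧ f (1 + a * t) = z * (1 + f a * r) := by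
  have hu : IsUnit (f (1 + a * t)) := (f_unit f).2 (hS.one_add ha.not_isUnit t)
  have e : f (1 + a * t) * f a = f a * f (1 + t * a) := by
    rw [← map_mul, ← map_mul]
    congr 1
    noncomm_ring
  obtain ⟨z, r, hz, hzr⟩ := hC (f a) _ ((f_irr f).2 ha) hu ⟨_, e⟩
  have hfa : ¬ IsUnit (f a) := ((f_irr f).2 ha).not_isUnit
  have hz0 : z ≠ 0 := by
    intro h0
    rw [h0, zero_add] at hzr
    rw [hzr] at hu
    exact nu_mul_left hfa r hu
  have hzu := hR.cn_unit hz hz0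
  obtain ⟨w, rfl⟩ := hzu
  refine ⟨w, ((w⁻¹ : Rˣ) : R) * r, hz, w.isUnit, ?_⟩
  have h1 : (w : R) * (f a * (((w⁻¹ : Rˣ) : R) * r)) = f a * r := by
    rw [← mul_assoc, hz (f a), mul_assoc, ← mul_assoc (w : R), Units.mul_inv, one_mul]
  rw [hzr, mul_add, mul_one, h1]

theorem exists_dat (hR : Rig R) (hS : Rig S) (hC : CRes R) (f : S ≃* R) :
    ∃ ρ ζ : S → R, Dat f ρ ζ := by
  have key : ∀ s : S, ∃ z p : R, ¬ IsUnit s → Cn z ∧ IsUnit z ∧ ¬ IsUnit p ∧
      f (1 + s) = z * (1 + p) ∧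
      ∀ a, Irreducible a → (∃ t, s = a * t) → ∃ r, p = f a * r := by
    intro s
    by_cases hu : IsUnit s
    · exact ⟨0, 0, fun h => absurd hu h⟩
    by_cases h0 : s = 0
    · refine ⟨1, 0, fun _ => ⟨cn_one, isUnit_one, nu_zero, ?_, ?_⟩⟩
      · rw [h0, add_zero, add_zero, one_mul, map_one]
      · intro a _ _
        exact ⟨0, by rw [mul_zero]⟩
    obtain ⟨a, t, ha, hat⟩ := hS.atom s h0 hu
    obtain ⟨z, r, hz, hzu, e⟩ := decomp hR hS hC f (t := t) ha
    refine ⟨z, f a * r, fun _ => ⟨hz, hzu, nu_mul_left ((f_irr f).2 ha).not_isUnit r, ?_, ?_⟩⟩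
    · rw [hat]; exact e
    · rintro b hb ⟨t', ht'⟩
      obtain ⟨z', r', hz', hzu', e'⟩ := decomp hR hS hC f (t := t') hb
      rw [← hat] at e
      rw [← ht'] at e'
      have h1 := hR.uniq hz hz' (nu_mul_left ((f_irr f).2 ha).not_isUnit r)
        (nu_mul_left ((f_irr f).2 hb).not_isUnit r') hzu (e.symm.trans e')
      exact ⟨r', h1.2⟩
  choose ζ ρ h using key
  exact ⟨ρ, ζ, fun s hs => (h s hs).1, fun s hs => (h s hs).2.1, fun s hs => (h s hs).2.2.1,
    fun s hs => (h s hs).2.2.2.1, fun s hs => (h s hs).2.2.2.2⟩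

variable {ρ ζ : S → R}

theorem Dat.eqv (D : Dat f ρ ζ) (hR : Rig R) {s : S} (hs : ¬ IsUnit s) {z p : R} (hz : Cn z)
    (hp : ¬ IsUnit p) (e : f (1 + s) = z * (1 + p)) : ζ s = z ∧ ρ s = p :=
  hR.uniq (D.cn s hs) hz (D.nu s hs) hp (D.un s hs) ((D.eq s hs).symm.trans e)

theorem Dat.zero (D : Dat f ρ ζ) (hR : Rig R) : ρ 0 = 0 :=
  (D.eqv hR nu_zero cn_one nu_zero (by rw [add_zero, add_zero, one_mul, map_one])).2

theorem nu_circ (hS : Rig S) {s t : S} (hs : ¬ IsUnit s) (ht : ¬ IsUnit t) :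
    ¬ IsUnit (s + t + s * t) := hS.nu_add (hS.nu_add hs ht) (nu_mul_left hs t)

theorem Dat.circ (D : Dat f ρ ζ) (hR : Rig R) (hS : Rig S) {s t : S} (hs : ¬ IsUnit s)
    (ht : ¬ IsUnit t) : ζ (s + t + s * t) = ζ s * ζ t ∧
      ρ (s + t + s * t) = ρ s + ρ t + ρ s * ρ t := by
  have hp : ¬ IsUnit (ρ s + ρ t + ρ s * ρ t) :=
    hR.nu_add (hR.nu_add (D.nu s hs) (D.nu t ht)) (nu_mul_left (D.nu s hs) _)
  apply D.eqv hR (nu_circ hS hs ht) ((D.cn s hs).mul (D.cn t ht)) hp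
  have e : (1 : S) + (s + t + s * t) = (1 + s) * (1 + t) := by noncomm_ring
  rw [e, map_mul, D.eq s hs, D.eq t ht]
  have h1 : (1 + ρ s) * ζ t = ζ t * (1 + ρ s) := (D.cn t ht _).symm
  calc ζ s * (1 + ρ s) * (ζ t * (1 + ρ t)) = ζ s * ((1 + ρ s) * ζ t) * (1 + ρ t) := by
        noncomm_ring
    _ = ζ s * (ζ t * (1 + ρ s)) * (1 + ρ t) := by rw [h1]
    _ = _ := by noncomm_ring

theorem Dat.add1 (D : Dat f ρ ζ) (hR : Rig R) (hS : Rig S) {s b t : S} (hs : ¬ IsUnit s)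
    (hb : Irreducible b) : ∃ r, ρ (s + b * t) = ρ s + f b * r := by
  obtain ⟨u, hu⟩ := hS.one_add' hs
  set v : S := ((u⁻¹ : Sˣ) : S) * (b * t) with hv
  have hbt : ¬ IsUnit (b * t) := nu_mul_left hb.not_isUnit t
  have hvn : ¬ IsUnit v := nu_mul_right hbt _
  have e1 : (1 + s) * v = b * t := by
    rw [← hu, hv, ← mul_assoc, Units.mul_inv, one_mul]
  have e2 : s + b * t = s + v + s * v := by
    rw [← e1]; noncomm_ring
  obtain ⟨r, hr⟩ := D.ats v hvn (((u⁻¹ : Sˣ) : S) * b) (irr_unit_mul hb (Units.isUnit _))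
    ⟨t, by rw [hv, mul_assoc]⟩
  obtain ⟨z, hz⟩ := D.un s hs
  have hzc : Cn (z : R) := by rw [hz]; exact D.cn s hs
  refine ⟨((z⁻¹ : Rˣ) : R) * r, ?_⟩
  rw [e2, (D.circ hR hS hs hvn).2]
  have e3 : ρ s + ρ v + ρ s * ρ v = ρ s + (1 + ρ s) * ρ v := by noncomm_ring
  rw [e3]
  congr 1
  have e4 : (1 + ρ s) = ((z⁻¹ : Rˣ) : R) * f (1 + s) := by
    rw [D.eq s hs, ← hz, ← mul_assoc, Units.inv_mul, one_mul]
  have e5 : f (1 + s) * f (((u⁻¹ : Sˣ) : S) * b) = f b := by
    rw [← map_mul, ← hu, ← mul_assoc, Units.mul_inv, one_mul]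
  have e6 := (Cn.inv hzc) (f b)
  calc (1 + ρ s) * ρ v = ((z⁻¹ : Rˣ) : R) * (f (1 + s) * f (((u⁻¹ : Sˣ) : S) * b)) * r := by
        rw [e4, hr]; noncomm_ring
    _ = ((z⁻¹ : Rˣ) : R) * f b * r := by rw [e5]
    _ = f b * (((z⁻¹ : Rˣ) : R) * r) := by rw [e6, mul_assoc]

/-- additivity for independent elements -/
theorem Dat.add_ind (D : Dat f ρ ζ) (hR : Rig R) (hS : Rig S) {a b s t : S}
    (ha : Irreducible a) (hb : Irreducible b) (hab : Ind a b) :
    ρ (a * s + b * t) = ρ (a * s) + ρ (b * t) := by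
  have hs : ¬ IsUnit (a * s) := nu_mul_left ha.not_isUnit s
  have ht : ¬ IsUnit (b * t) := nu_mul_left hb.not_isUnit t
  obtain ⟨r, hr⟩ := D.add1 hR hS (t := t) hs hb
  obtain ⟨r', hr'⟩ := D.add1 hR hS (t := s) ht ha
  obtain ⟨x, hx⟩ := D.ats _ hs a ha ⟨s, rfl⟩
  obtain ⟨y, hy⟩ := D.ats _ ht b hb ⟨t, rfl⟩
  rw [add_comm (b * t)] at hr'
  have e : f a * (x - r') = f b * (y - r) := by
    have h1 : ρ (a * s) + f b * r = ρ (b * t) + f a * r' := hr.symm.trans hr'
    rw [hx, hy] at h1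
    rw [mul_sub, mul_sub, sub_eq_sub_iff_add_eq_add]
    rw [h1, add_comm]
  have h2 := (f_ind f hab).zero ((f_irr f).2 ha) ((f_irr f).2 hb) e
  have h3 : y = r := sub_eq_zero.1 h2.2
  rw [hr, hy, h3]

theorem Ind.not_mem {a b : S} (h : Ind a b) (hb : Irreducible b) : ¬ ∃ t, b = a * t := by
  rintro ⟨t, ht⟩
  have h1 := h t 1 (by rw [mul_one, ht])
  exact ne_zero_of_irr hb (ht.trans h1)

theorem Dat.neg (D : Dat f ρ ζ) (hR : Rig R) (hS : Rig S) {s : S} (hs : ¬ IsUnit s) :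
    ρ s + ρ (-s) = 0 := by
  by_cases h0 : s = 0
  · rw [h0, neg_zero, D.zero hR, add_zero]
  obtain ⟨a, t, ha, hat⟩ := hS.atom s h0 hs
  obtain ⟨b, hb, hab⟩ := hS.exists_ind ha
  have hq : ¬ IsUnit (b - s) := hS.nu_sub hb.not_isUnit hs
  have hq0 : b - s ≠ 0 := by
    intro h
    exact hab.not_mem hb ⟨t, by rw [← hat]; exact sub_eq_zero.1 h⟩
  obtain ⟨d, t', hd, hdt⟩ := hS.atom _ hq0 hq
  have hind : Ind a d := by
    rcases hS.ind_or ha hd with h | ⟨w, -, h⟩
    · exact h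
    · exfalso
      apply hab.not_mem hb
      refine ⟨w * t' + t, ?_⟩
      rw [mul_add, ← hat, ← mul_assoc, ← h, ← hdt]
      abel
  have e1 : ρ b = ρ s + ρ (b - s) := by
    have h1 := D.add_ind hR hS (s := t) (t := t') ha hd hind
    rw [← hat, ← hdt] at h1
    rw [← h1]
    congr 1
    abel
  have e2 : ρ (b - s) = ρ b + ρ (-s) := by
    have h1 := D.add_ind hR hS (s := 1) (t := -t) hb ha hab.symm
    rw [mul_one, mul_neg, ← hat] at h1
    rw [← h1, sub_eq_add_neg]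
  rw [e2] at e1
  have h3 : ρ b + (ρ s + ρ (-s)) = ρ b + 0 := by
    rw [add_zero]
    calc ρ b + (ρ s + ρ (-s)) = ρ s + (ρ b + ρ (-s)) := by abel
      _ = ρ b := e1.symm
  exact add_left_cancel h3

/-- additivity -/
theorem Dat.add (D : Dat f ρ ζ) (hR : Rig R) (hS : Rig S) {s t : S} (hs : ¬ IsUnit s)
    (ht : ¬ IsUnit t) : ρ (s + t) = ρ s + ρ t := by
  by_cases hs0 : s = 0
  · rw [hs0, zero_add, D.zero hR, zero_add]
  by_cases ht0 : t = 0
  · rw [ht0, add_zero, D.zero hR, add_zero]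
  obtain ⟨a, s', ha, has⟩ := hS.atom s hs0 hs
  obtain ⟨b, t', hb, hbt⟩ := hS.atom t ht0 ht
  rcases hS.ind_or ha hb with hab | ⟨w, -, hw⟩
  · rw [has, hbt]
    exact D.add_ind hR hS ha hb hab
  by_cases hst : s + t = 0
  · have h1 : t = -s := (neg_eq_of_add_eq_zero_right hst).symm
    rw [hst, D.zero hR, h1, D.neg hR hS hs]
  obtain ⟨c, hc, hac⟩ := hS.exists_ind ha
  have hts : t = a * (w * t') := by rw [← mul_assoc, ← hw, hbt]
  have ex : ρ (s + c) = ρ s + ρ c := by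
    have h1 := D.add_ind hR hS (s := s') (t := 1) ha hc hac
    rwa [mul_one, ← has] at h1
  have ey : ρ (t - c) = ρ t + ρ (-c) := by
    have h1 := D.add_ind hR hS (s := w * t') (t := -1) ha hc hac
    rw [mul_neg, mul_one, ← hts] at h1
    rw [← h1, sub_eq_add_neg]
  have hxn : ¬ IsUnit (s + c) := hS.nu_add hs hc.not_isUnit
  have hyn : ¬ IsUnit (t - c) := hS.nu_sub ht hc.not_isUnit
  have hx0 : s + c ≠ 0 := by
    intro h
    apply hac.not_mem hc
    refine ⟨-s', ?_⟩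
    rw [mul_neg, ← has]
    exact (neg_eq_of_add_eq_zero_right h).symm
  have hy0 : t - c ≠ 0 := by
    intro h
    apply hac.not_mem hc
    refine ⟨w * t', ?_⟩
    rw [← hts]
    exact (sub_eq_zero.1 h).symm
  obtain ⟨a1, x', ha1, hx'⟩ := hS.atom _ hx0 hxn
  obtain ⟨b1, y', hb1, hy'⟩ := hS.atom _ hy0 hyn
  have hind : Ind a1 b1 := by
    rcases hS.ind_or ha1 hb1 with h | ⟨w1, -, h⟩
    · exact h
    · exfalso
      have h2 : s + t = a1 * (x' + w1 * y') := by
        rw [mul_add, ← hx', ← mul_assoc, ← h, ← hy']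
        abel
      have h3 : s + t = a * (s' + w * t') := by rw [mul_add, ← has, ← hts]
      rcases hS.ind_or ha ha1 with h4 | ⟨w2, -, h4⟩
      · apply hst
        rw [h3]
        exact h4 _ _ (h3.symm.trans h2)
      · apply hac.not_mem hc
        refine ⟨w2 * x' - s', ?_⟩
        rw [mul_sub, ← has, ← mul_assoc, ← h4, ← hx']
        abel
  have e3 : ρ (s + t) = ρ (s + c) + ρ (t - c) := by
    have h1 := D.add_ind hR hS (s := x') (t := y') ha1 hb1 hind
    rw [← hx', ← hy'] at h1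
    rw [← h1]
    congr 1
    abel
  rw [e3, ex, ey]
  have h5 := D.neg hR hS hc.not_isUnit
  calc ρ s + ρ c + (ρ t + ρ (-c)) = ρ s + ρ t + (ρ c + ρ (-c)) := by abel
    _ = ρ s + ρ t := by rw [h5, add_zero]

/-- multiplicativity -/
theorem Dat.mul (D : Dat f ρ ζ) (hR : Rig R) (hS : Rig S) {s t : S} (hs : ¬ IsUnit s)
    (ht : ¬ IsUnit t) : ρ (s * t) = ρ s * ρ t := by
  have h1 := (D.circ hR hS hs ht).2
  rw [D.add hR hS (hS.nu_add hs ht) (nu_mul_left hs t), D.add hR hS hs ht] at h1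
  exact add_left_cancel h1

theorem Dat.inj (D : Dat f ρ ζ) (hS : Rig S) {s : S} (hs : ¬ IsUnit s) (h : ρ s = 0) :
    s = 0 := by
  have e := D.eq s hs
  rw [h, add_zero, mul_one] at e
  have h1 : Cn (1 + s) := (f_cn f).1 (by rw [e]; exact D.cn s hs)
  have h2 : Cn s := fun x => by
    have h3 := h1 x
    rw [add_mul, mul_add, one_mul, mul_one] at h3
    exact add_left_cancel h3
  exact hS.cn_nu h2 hs

theorem Dat.conj_unit (D : Dat f ρ ζ) (hR : Rig R) {t q : S} (ht : IsUnit t)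
    (hq : ¬ IsUnit q) : ζ (t * q) = ζ (q * t) ∧ f t * ρ (q * t) = ρ (t * q) * f t := by
  obtain ⟨u, rfl⟩ := ht
  have h1 : ¬ IsUnit ((u : S) * q) := nu_mul_right hq _
  have h2 : ¬ IsUnit (q * (u : S)) := nu_mul_left hq _
  have h3 : ¬ IsUnit (f u * ρ (q * u) * f ((u⁻¹ : Sˣ) : S)) :=
    nu_mul_left (nu_mul_right (D.nu _ h2) _) _
  have hfu : f (u : S) * f ((u⁻¹ : Sˣ) : S) = 1 := by rw [← map_mul, Units.mul_inv, map_one]
  have hfu' : f ((u⁻¹ : Sˣ) : S) * f (u : S) = 1 := by rw [← map_mul, Units.inv_mul, map_one]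
  have h4 := D.eqv hR h1 (z := ζ (q * u)) (p := f u * ρ (q * u) * f ((u⁻¹ : Sˣ) : S))
    (D.cn _ h2) h3 (by
      have e : (1 : S) + u * q = u * (1 + q * u) * ((u⁻¹ : Sˣ) : S) := by
        rw [mul_add, mul_one, add_mul, Units.mul_inv, ← mul_assoc, mul_assoc _ (u : S),
          Units.mul_inv, mul_one]
      rw [e, map_mul, map_mul, D.eq _ h2]
      have h5 : f (u : S) * ζ (q * u) = ζ (q * u) * f u := (D.cn _ h2 _).symm
      calc f (u : S) * (ζ (q * u) * (1 + ρ (q * u))) * f ((u⁻¹ : Sˣ) : S)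
          = (f (u : S) * ζ (q * u)) * (1 + ρ (q * u)) * f ((u⁻¹ : Sˣ) : S) := by noncomm_ring
        _ = ζ (q * u) * (f u * f ((u⁻¹ : Sˣ) : S) + f u * ρ (q * u) * f ((u⁻¹ : Sˣ) : S)) := by
          rw [h5]; noncomm_ring
        _ = _ := by rw [hfu])
  refine ⟨h4.1, ?_⟩
  rw [h4.2, mul_assoc (f (u : S) * ρ (q * u)), hfu', mul_one]

/-- `ζ (t q) = ζ (q t)` -/
theorem Dat.zcomm (D : Dat f ρ ζ) (hR : Rig R) (hS : Rig S) {t q : S} (hq : ¬ IsUnit q) :
    ζ (t * q) = ζ (q * t) := by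
  by_cases ht : IsUnit t
  · exact (D.conj_unit hR ht hq).1
  obtain ⟨v, hv⟩ : IsUnit (1 - t) := by
    rw [sub_eq_add_neg]; exact hS.one_add' (nu_neg ht)
  set w : S := ((v⁻¹ : Sˣ) : S) with hw
  have w1 : w * t = w - 1 := by
    have : w * (1 - t) = 1 := by rw [← hv, hw, Units.inv_mul]
    rw [mul_sub, mul_one] at this
    rw [← this]; abel
  have w2 : t * w = w - 1 := by
    have : (1 - t) * w = 1 := by rw [← hv, hw, Units.mul_inv]
    rw [sub_mul, one_mul] at this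
    rw [← this]; abel
  have hwn : ¬ IsUnit (w - 1) := by rw [← w1]; exact nu_mul_right ht _
  have h1 := (D.conj_unit hR (hS.one_add' hq) hwn).1
  have h2 := (D.circ hR hS hwn (nu_mul_left ht q)).1
  have h3 := (D.circ hR hS (nu_mul_left hq t) hwn).1
  have e2 : w - 1 + t * q + (w - 1) * (t * q) = (w - 1) * (1 + q) := by
    calc w - 1 + t * q + (w - 1) * (t * q) = (w - 1) + (w * t) * q := by noncomm_ring
      _ = _ := by rw [w1]; noncomm_ring
  have e3 : q * t + (w - 1) + q * t * (w - 1) = (1 + q) * (w - 1) := by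
    calc q * t + (w - 1) + q * t * (w - 1) = (w - 1) + q * (t * w) := by noncomm_ring
      _ = _ := by rw [w2]; noncomm_ring
  rw [e2] at h2
  rw [e3] at h3
  rw [h2, h3] at h1
  rw [D.cn _ hwn] at h1
  exact (mul_right_cancel₀ (ne_zero_of_unit (D.un _ hwn)) h1).symm

theorem Dat.conj (D : Dat f ρ ζ) (hR : Rig R) (hS : Rig S) {t q : S} (hq : ¬ IsUnit q) :
    f t * ρ (q * t) = ρ (t * q) * f t := by
  have h1 : ¬ IsUnit (t * q) := nu_mul_right hq _
  have h2 : ¬ IsUnit (q * t) := nu_mul_left hq _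
  have e : f t * f (1 + q * t) = f (1 + t * q) * f t := by
    rw [← map_mul, ← map_mul]; congr 1; noncomm_ring
  rw [D.eq _ h1, D.eq _ h2, D.zcomm hR hS hq] at e
  have h5 : f t * ζ (q * t) = ζ (q * t) * f t := (D.cn _ h2 _).symm
  have h6 : ζ (q * t) * (f t * (1 + ρ (q * t))) = ζ (q * t) * ((1 + ρ (t * q)) * f t) := by
    rw [← mul_assoc, ← h5, mul_assoc, e, mul_assoc]
  have h7 := mul_left_cancel₀ (ne_zero_of_unit (D.un _ h2)) h6
  rw [mul_add, add_mul, mul_one, one_mul] at h7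
  exact add_left_cancel h7

/-- elements which commute with all `ρ s` are central -/
theorem Dat.central (D : Dat f ρ ζ) (hR : Rig R) (hS : Rig S) (hC : CRes R) {x : R}
    (hx0 : x ≠ 0) (hx : ∀ s, ¬ IsUnit s → x * ρ s = ρ s * x) : Cn x ∧ IsUnit x := by
  obtain ⟨a, -, ha, -, -⟩ := hS.two
  obtain ⟨b, hb, hab⟩ := hS.exists_ind ha
  have hfa := (f_irr f).2 ha
  have hfb := (f_irr f).2 hb
  have hfab := f_ind f hab
  obtain ⟨r, hr⟩ := D.ats a ha.not_isUnit a ha ⟨1, (mul_one a).symm⟩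
  obtain ⟨r', hr'⟩ := D.ats b hb.not_isUnit b hb ⟨1, (mul_one b).symm⟩
  have hra : ρ a ≠ 0 := fun h => ne_zero_of_irr ha (D.inj hS ha.not_isUnit h)
  have hrb : ρ b ≠ 0 := fun h => ne_zero_of_irr hb (D.inj hS hb.not_isUnit h)
  have ea := hx a ha.not_isUnit
  have eb := hx b hb.not_isUnit
  by_cases hxu : IsUnit x
  · refine ⟨?_, hxu⟩
    have key : ∀ c : R, Irreducible c → ∀ y : R, c * y ≠ 0 → x * (c * y) = c * y * x →
        ∃ z t : R, Cn z ∧ x = z + c * t := by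
      intro c hc y hy e
      have h1 : c * (y * x) = (x * c) * y := by rw [← mul_assoc, ← e, mul_assoc]
      rcases hR.ind_or hc (irr_unit_mul hc hxu) with h2 | ⟨w, -, h2⟩
      · exfalso
        have h3 := h2 _ _ h1
        rw [← mul_assoc] at h3
        rcases mul_eq_zero.1 h3 with h4 | h4
        · exact hy h4
        · exact hx0 h4
      · exact hC c x hc hxu ⟨w, h2⟩
    obtain ⟨z, t, hz, hzt⟩ := key (f a) hfa r (by rw [← hr]; exact hra) (by rw [← hr]; exact ea)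
    obtain ⟨z', t', hz', hzt'⟩ := key (f b) hfb r' (by rw [← hr']; exact hrb)
      (by rw [← hr']; exact eb)
    have h5 : z - z' = f b * t' - f a * t := by
      have : z + f a * t = z' + f b * t' := by rw [← hzt, ← hzt']
      rw [sub_eq_sub_iff_add_eq_add, this, add_comm]
    have h6 : z - z' = 0 := hR.cn_nu (hz.sub hz') (by
      rw [h5]
      exact hR.nu_sub (nu_mul_left hfb.not_isUnit _) (nu_mul_left hfa.not_isUnit _))
    rw [h6] at h5
    have h7 := hfab.zero hfa hfb (sub_eq_zero.1 h5.symm).symm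
    rw [hzt, h7.1, mul_zero, add_zero]
    exact hz
  · exfalso
    obtain ⟨c, y, hc, hcy⟩ := hR.atom x hx0 hxu
    have key : ∀ d : R, Irreducible d → ∀ y' : R, d * y' ≠ 0 → x * (d * y') = d * y' * x →
        ∃ w, IsUnit w ∧ d = c * w := by
      intro d hd y' hy' e
      rcases hR.ind_or hc hd with h2 | h2
      · exfalso
        have h3 : c * (y * (d * y')) = d * (y' * x) := by
          rw [← mul_assoc, ← hcy, e, mul_assoc]
        have h4 := h2 _ _ h3
        rw [h3, ← mul_assoc] at h4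
        rcases mul_eq_zero.1 h4 with h5 | h5
        · exact hy' h5
        · exact hx0 h5
      · exact h2
    obtain ⟨w, hw, e1⟩ := key (f a) hfa r (by rw [← hr]; exact hra) (by rw [← hr]; exact ea)
    obtain ⟨w', hw', e2⟩ := key (f b) hfb r' (by rw [← hr']; exact hrb) (by rw [← hr']; exact eb)
    obtain ⟨w, rfl⟩ := hw
    obtain ⟨w', rfl⟩ := hw'
    have h3 : f a * ((w⁻¹ : Rˣ) : R) = f b * ((w'⁻¹ : Rˣ) : R) := by
      rw [e1, e2, mul_assoc, mul_assoc, Units.mul_inv, Units.mul_inv]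
    have h4 := (hfab.zero hfa hfb h3).1
    exact ne_zero_of_unit (Units.isUnit w⁻¹) h4

/-- `ρ s` is a central multiple of `f s` -/
theorem Dat.scal (D : Dat f ρ ζ) (hR : Rig R) (hS : Rig S) (hC : CRes R) {s : S}
    (hs : ¬ IsUnit s) (hs0 : s ≠ 0) : ∃ x, Cn x ∧ IsUnit x ∧ ρ s = x * f s := by
  have hm0 : f s ≠ 0 := f_ne f hs0
  have hn0 : ρ s ≠ 0 := fun h => hs0 (D.inj hS hs h)
  have key : ∀ q, ¬ IsUnit q → f s * (ρ q * ρ s) = ρ s * (ρ q * f s) := by
    intro q hq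
    have h1 := D.conj hR hS (t := s) hq
    rw [D.mul hR hS hq hs, D.mul hR hS hs hq] at h1
    rw [h1, mul_assoc]
  obtain ⟨a, -, ha, -, -⟩ := hS.two
  have hra : ρ a ≠ 0 := fun h => ne_zero_of_irr ha (D.inj hS ha.not_isUnit h)
  have hne : f s * (ρ a * ρ s) ≠ 0 := mul_ne_zero hm0 (mul_ne_zero hra hn0)
  rcases hR.rigid _ _ _ _ (key a ha.not_isUnit) hne with ⟨x, hx⟩ | ⟨x, hx⟩
  · -- `f s = ρ s x`
    have h1 : ∀ q, ¬ IsUnit q → x * (ρ q * ρ s) = ρ q * (ρ s * x) := by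
      intro q hq
      have h2 := key q hq
      rw [hx, mul_assoc] at h2
      exact mul_left_cancel₀ hn0 h2
    have h3 : ∀ q, ¬ IsUnit q → x * ρ q = ρ q * x := by
      intro q hq
      have h4 := h1 (q * a) (nu_mul_left hq a)
      rw [D.mul hR hS hq ha.not_isUnit] at h4
      have h5 := h1 a ha.not_isUnit
      have h6 : x * ρ q * (ρ a * ρ s) = ρ q * x * (ρ a * ρ s) := by
        calc x * ρ q * (ρ a * ρ s) = x * (ρ q * ρ a * ρ s) := by noncomm_ring
          _ = ρ q * ρ a * (ρ s * x) := h4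
          _ = ρ q * (ρ a * (ρ s * x)) := by noncomm_ring
          _ = ρ q * (x * (ρ a * ρ s)) := by rw [h5]
          _ = _ := by noncomm_ring
      exact mul_right_cancel₀ (mul_ne_zero hra hn0) h6
    have hx0 : x ≠ 0 := by
      rintro rfl
      exact hm0 (by rw [hx, mul_zero])
    obtain ⟨hxc, hxu⟩ := D.central hR hS hC hx0 h3
    obtain ⟨u, rfl⟩ := hxu
    refine ⟨((u⁻¹ : Rˣ) : R), Cn.inv hxc, Units.isUnit _, ?_⟩
    rw [hx, ← hxc, ← mul_assoc, Units.inv_mul, one_mul]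
  · -- `ρ s = f s x`
    have h1 : ∀ q, ¬ IsUnit q → ρ q * (f s * x) = x * (ρ q * f s) := by
      intro q hq
      have h2 := key q hq
      rw [hx, mul_assoc] at h2
      exact mul_left_cancel₀ hm0 h2
    have h3 : ∀ q, ¬ IsUnit q → x * ρ q = ρ q * x := by
      intro q hq
      have h4 := h1 (q * a) (nu_mul_left hq a)
      rw [D.mul hR hS hq ha.not_isUnit] at h4
      have h5 := h1 a ha.not_isUnit
      have h6 : x * ρ q * (ρ a * f s) = ρ q * x * (ρ a * f s) := by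
        calc x * ρ q * (ρ a * f s) = x * (ρ q * ρ a * f s) := by noncomm_ring
          _ = ρ q * ρ a * (f s * x) := h4.symm
          _ = ρ q * (ρ a * (f s * x)) := by noncomm_ring
          _ = ρ q * (x * (ρ a * f s)) := by rw [h5]
          _ = _ := by noncomm_ring
      exact mul_right_cancel₀ (mul_ne_zero hra hm0) h6
    have hx0 : x ≠ 0 := by
      rintro rfl
      exact hn0 (by rw [hx, mul_zero])
    obtain ⟨hxc, hxu⟩ := D.central hR hS hC hx0 h3
    exact ⟨x, hxc, hxu, by rw [hx, hxc]⟩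

theorem Dat.act (D : Dat f ρ ζ) (hR : Rig R) (hS : Rig S) (hC : CRes R) {s : S}
    (hs0 : s ≠ 0) : ∃ x, Cn x ∧ IsUnit x ∧ ∀ q, ¬ IsUnit q → ρ (s * q) = x * f s * ρ q := by
  obtain ⟨e, -, he, -, -⟩ := hS.two
  have hen := he.not_isUnit
  have he0 := ne_zero_of_irr he
  have hre : ρ e ≠ 0 := fun h => he0 (D.inj hS hen h)
  obtain ⟨x1, hx1, hu1, e1⟩ := D.scal hR hS hC (nu_mul_right hen s) (mul_ne_zero hs0 he0)
  obtain ⟨x2, hx2, hu2, e2⟩ := D.scal hR hS hC hen he0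
  obtain ⟨u2, rfl⟩ := hu2
  have hx2' := Cn.inv hx2
  refine ⟨x1 * ((u2⁻¹ : Rˣ) : R), hx1.mul hx2', hu1.mul (Units.isUnit _), ?_⟩
  have e3 : ρ (s * e) = x1 * ((u2⁻¹ : Rˣ) : R) * f s * ρ e := by
    rw [e1, e2, map_mul]
    calc x1 * (f s * f e) = x1 * (((u2⁻¹ : Rˣ) : R) * (u2 : R)) * f s * f e := by
          rw [Units.inv_mul]; noncomm_ring
      _ = x1 * ((u2⁻¹ : Rˣ) : R) * ((u2 : R) * f s) * f e := by noncomm_ring
      _ = x1 * ((u2⁻¹ : Rˣ) : R) * (f s * (u2 : R)) * f e := by rw [hx2]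
      _ = _ := by noncomm_ring
  intro q hq
  have i1 : ρ e * ρ (s * q) = ρ (e * s) * ρ q := by
    rw [← D.mul hR hS hen (nu_mul_right hq s), ← mul_assoc,
      D.mul hR hS (nu_mul_left hen s) hq]
  have i2 : ρ e * ρ (s * e) = ρ (e * s) * ρ e := by
    rw [← D.mul hR hS hen (nu_mul_right hen s), ← mul_assoc,
      D.mul hR hS (nu_mul_left hen s) hen]
  have i3 : ρ (e * s) = ρ e * (x1 * ((u2⁻¹ : Rˣ) : R) * f s) := by
    apply mul_right_cancel₀ hre
    rw [← i2, e3]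
    noncomm_ring
  apply mul_left_cancel₀ hre
  rw [i1, i3]
  noncomm_ring

end main

section final
variable {R S : Type*} [Ring R] [IsDomain R] [Ring S] [IsDomain S]

theorem exists_hom (hR : Rig R) (hS : Rig S) (hC : CRes R) (f : S ≃* R) :
    ∃ g : S →+* R, Function.Injective g ∧
      ∀ s, s ≠ 0 → ∃ x, Cn x ∧ IsUnit x ∧ g s = x * f s := by
  obtain ⟨ρ, ζ, D⟩ := exists_dat hR hS hC f
  have key : ∀ s : S, ∃ y : R, (∀ q, ¬ IsUnit q → ρ (s * q) = y * ρ q) ∧
      (s ≠ 0 → ∃ x, Cn x ∧ IsUnit x ∧ y = x * f s) := by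
    intro s
    by_cases hs : s = 0
    · refine ⟨0, fun q _ => ?_, fun h => absurd hs h⟩
      rw [hs, zero_mul, zero_mul, D.zero hR]
    · obtain ⟨x, h1, h2, h3⟩ := D.act hR hS hC hs
      exact ⟨x * f s, h3, fun _ => ⟨x, h1, h2, rfl⟩⟩
  choose g hg hg' using key
  obtain ⟨e, -, he, -, -⟩ := hS.two
  have hen := he.not_isUnit
  have he0 := ne_zero_of_irr he
  have hre : ρ e ≠ 0 := fun h => he0 (D.inj hS hen h)
  have g1 : g 1 = 1 := by
    apply mul_right_cancel₀ hre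
    rw [← hg 1 e hen, one_mul, one_mul]
  have g0 : g 0 = 0 := by
    apply mul_right_cancel₀ hre
    rw [← hg 0 e hen, zero_mul, zero_mul, D.zero hR]
  have gm : ∀ s t, g (s * t) = g s * g t := by
    intro s t
    apply mul_right_cancel₀ hre
    rw [← hg _ e hen, mul_assoc, hg s _ (nu_mul_right hen t), hg t e hen, mul_assoc]
  have ga : ∀ s t, g (s + t) = g s + g t := by
    intro s t
    apply mul_right_cancel₀ hre
    rw [← hg _ e hen, add_mul, D.add hR hS (nu_mul_right hen s) (nu_mul_right hen t),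
      hg s e hen, hg t e hen, add_mul]
  refine ⟨{ toFun := g, map_one' := g1, map_zero' := g0, map_mul' := gm, map_add' := ga },
    ?_, fun s hs => hg' s hs⟩
  rw [injective_iff_map_eq_zero]
  intro s hs
  have hs' : g s = 0 := hs
  have h1 := hg s e hen
  rw [hs', zero_mul] at h1
  have h2 := D.inj hS (nu_mul_right hen s) h1
  exact (mul_eq_zero.1 h2).resolve_right he0

theorem hom_surj (hR : Rig R) (hS : Rig S) (f : S ≃* R) (g : S →+* R)
    (hgi : Function.Injective g)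
    (hg : ∀ s, s ≠ 0 → ∃ x, Cn x ∧ IsUnit x ∧ g s = x * f s) : Function.Surjective g := by
  have g_ne : ∀ s, s ≠ 0 → g s ≠ 0 := fun s hs h => hs (hgi (by rw [h, map_zero]))
  -- quotients
  have C1 : ∀ (y : R) (d1 d2 : S), Cn y → d2 ≠ 0 → g d2 = y * g d1 → ∃ k, g k = y := by
    intro y d1 d2 hy hd2 e
    have hd1 : d1 ≠ 0 := by
      rintro rfl
      rw [map_zero, mul_zero] at e
      exact g_ne d2 hd2 e
    obtain ⟨x1, hx1, -, e1⟩ := hg d1 hd1
    obtain ⟨x2, hx2, hu2, e2⟩ := hg d2 hd2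
    obtain ⟨u2, rfl⟩ := hu2
    obtain ⟨k, hk⟩ := f.surjective (((u2⁻¹ : Rˣ) : R) * y * x1)
    have h1 : d2 = k * d1 := by
      apply f.injective
      rw [map_mul, hk]
      have h2 : (u2 : R) * f d2 = y * (x1 * f d1) := by rw [← e2, e, e1]
      calc f d2 = ((u2⁻¹ : Rˣ) : R) * ((u2 : R) * f d2) := by
            rw [← mul_assoc, Units.inv_mul, one_mul]
        _ = _ := by rw [h2]; noncomm_ring
    refine ⟨k, ?_⟩
    apply mul_right_cancel₀ (g_ne d1 hd1)
    rw [← map_mul, ← h1, e]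
  obtain ⟨a, -, ha, -, -⟩ := hS.two
  obtain ⟨b, hb, hab⟩ := hS.exists_ind ha
  have ha0 := ne_zero_of_irr ha
  have hb0 := ne_zero_of_irr hb
  obtain ⟨xa, hxa, -, ea⟩ := hg a ha0
  obtain ⟨xb, hxb, -, eb⟩ := hg b hb0
  have hfa := (f_irr f).2 ha
  have hfb := (f_irr f).2 hb
  have hfab := f_ind f hab
  have ea' : g a = f a * xa := by rw [ea, hxa]
  have eb' : g b = f b * xb := by rw [eb, hxb]
  have hind : ∀ c d : R, g a * c = g b * d → c = 0 := by
    intro c d e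
    rw [ea', eb', mul_assoc, mul_assoc] at e
    have h1 := (hfab.zero hfa hfb e).1
    rcases mul_eq_zero.1 h1 with h2 | h2
    · exact absurd (by rw [ea', h2, mul_zero]) (g_ne a ha0)
    · exact h2
  -- central units are values
  have C2 : ∀ c : R, Cn c → c ≠ 0 → ∃ k, g k = c := by
    intro c hc hc0
    have hcu := hR.cn_unit hc hc0
    have hne : c * g a + g b ≠ 0 := by
      intro h
      have h1 : g a * c = g b * (-1) := by
        rw [← hc, mul_neg, mul_one]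
        exact eq_neg_of_add_eq_zero_left h
      exact hc0 (hind _ _ h1)
    obtain ⟨s, hs⟩ := f.surjective (c * g a + g b)
    have hs0 : s ≠ 0 := by
      rintro rfl
      rw [f_zero] at hs
      exact hne hs.symm
    obtain ⟨x, hx, hxu, ex⟩ := hg s hs0
    obtain ⟨u, rfl⟩ := hxu
    set y : R := ((u⁻¹ : Rˣ) : R) with hy
    have hyc : Cn y := Cn.inv hx
    have hyN : y * g s = c * g a + g b := by
      rw [ex, hs, hy, ← mul_assoc, Units.inv_mul, one_mul]
    have hBA : b * a - a * b ≠ 0 := by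
      intro h
      have h1 : g a * g b = g b * g a := by
        rw [← map_mul, ← map_mul, sub_eq_zero.1 h]
      exact g_ne b hb0 (hind _ _ h1)
    have k1 : g (b * a - a * b) = y * g (s * a - a * s) := by
      rw [map_sub, map_sub, map_mul, map_mul, map_mul, map_mul]
      have h1 : y * (g s * g a - g a * g s) = (y * g s) * g a - g a * (y * g s) := by
        rw [mul_sub, ← mul_assoc, ← mul_assoc, ← mul_assoc, hyc (g a), mul_assoc (g a)]
      rw [h1, hyN]
      have h2 : g a * (c * g a) = c * g a * g a := by rw [← mul_assoc, ← hc]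
      rw [mul_add, add_mul, h2]
      abel
    obtain ⟨k0, hk0⟩ := C1 y _ _ hyc hBA k1
    obtain ⟨v, rfl⟩ := hcu
    have hvc : Cn ((v⁻¹ : Rˣ) : R) := Cn.inv hc
    have hAB : a * b - b * a ≠ 0 := fun h => hBA (by rw [← neg_sub, h, neg_zero])
    have k2 : g (a * b - b * a) = ((v⁻¹ : Rˣ) : R) * y * g (s * b - b * s) := by
      rw [map_sub, map_sub, map_mul, map_mul, map_mul, map_mul]
      have h1 : y * (g s * g b - g b * g s) = (y * g s) * g b - g b * (y * g s) := by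
        rw [mul_sub, ← mul_assoc, ← mul_assoc, ← mul_assoc, hyc (g b), mul_assoc (g b)]
      have h3 : g b * ((v : R) * g a) = (v : R) * (g b * g a) := by
        rw [← mul_assoc, ← hc, mul_assoc]
      have h4 : (y * g s) * g b - g b * (y * g s) = (v : R) * (g a * g b - g b * g a) := by
        rw [hyN, mul_add, add_mul, h3, mul_sub, mul_assoc]
        abel
      rw [mul_assoc, h1, h4, ← mul_assoc, Units.inv_mul, one_mul]
    obtain ⟨k3, hk3⟩ := C1 _ _ _ (hvc.mul hyc) hAB k2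
    -- `k3` is a unit
    have hk30 : k3 ≠ 0 := by
      rintro rfl
      rw [map_zero] at hk3
      have h5 : IsUnit (((v⁻¹ : Rˣ) : R) * y) := (Units.isUnit _).mul (Units.isUnit _)
      rw [← hk3] at h5
      exact nu_zero h5
    obtain ⟨x3, hx3, -, ex3⟩ := hg k3 hk30
    have hk3u : IsUnit k3 := by
      by_contra hcn
      have h6 : ¬ IsUnit (g k3) := by
        rw [ex3]
        exact nu_mul_right (fun h => hcn ((f_unit f).1 h)) _
      apply h6
      rw [hk3]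
      exact (Units.isUnit _).mul (Units.isUnit _)
    obtain ⟨w3, rfl⟩ := hk3u
    refine ⟨k0 * ((w3⁻¹ : Sˣ) : S), ?_⟩
    have h7 : g (w3 : S) * g ((w3⁻¹ : Sˣ) : S) = 1 := by
      rw [← map_mul, Units.mul_inv, map_one]
    rw [map_mul, hk0]
    rw [hk3] at h7
    -- `v⁻¹ y h = 1`, so `y h = v`
    calc y * g ((w3⁻¹ : Sˣ) : S)
        = (v : R) * (((v⁻¹ : Rˣ) : R) * y * g ((w3⁻¹ : Sˣ) : S)) := by
          rw [← mul_assoc, ← mul_assoc, Units.mul_inv, one_mul]
      _ = v := by rw [h7, mul_one]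
  intro r
  by_cases hr : r = 0
  · exact ⟨0, by rw [map_zero, hr]⟩
  obtain ⟨s, rfl⟩ := f.surjective r
  have hs0 : s ≠ 0 := by
    rintro rfl
    exact hr (f_zero f)
  obtain ⟨x, hx, hxu, ex⟩ := hg s hs0
  obtain ⟨u, rfl⟩ := hxu
  obtain ⟨k, hk⟩ := C2 _ (Cn.inv hx) (ne_zero_of_unit (Units.isUnit u⁻¹))
  exact ⟨k * s, by rw [map_mul, hk, ex, ← mul_assoc, Units.inv_mul, one_mul]⟩

/-- a ring whose multiplicative monoid is isomorphic to the one of `R` is isomorphic to `R` -/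
theorem rigidity (hR : Rig R) (hC : CRes R) (f : S ≃* R) : Nonempty (S ≃+* R) := by
  have hS := hR.transfer f
  obtain ⟨g, hgi, hg⟩ := exists_hom hR hS hC f
  exact ⟨RingEquiv.ofBijective g ⟨hgi, hom_surj hR hS f g hgi hg⟩⟩

end final

end Pool.Agent.MSG
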